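import Pool.Agent.N520.RO.Inst

/-!
Project RO: the Langlands decomposition in the groups `O(n + 1, 1)` and `U(n + 1, 1)`.
-/

set_option autoImplicit false
set_option linter.unusedSimpArgs false

open Set Filter Topology Matrix Pool.Agent.N520.RO

namespace Pool.Agent.N247.RO

variable {𝕜 : Type} [RCLike 𝕜] {n : ℕ}

theorem sum_fin2 (f : Fin (n + 2) → 𝕜) :
    ∑ k, f k = f 0 + f 1 + ∑ k : Fin n, f k.succ.succ := by
  rw [Fin.sum_univ_succ, Fin.sum_univ_succ, ← add_assoc]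
  rfl

theorem ss_ne_zero (k : Fin n) : (k.succ.succ : Fin (n + 2)) ≠ 0 := Fin.succ_ne_zero _

theorem ss_ne_one (k : Fin n) : (k.succ.succ : Fin (n + 2)) ≠ 1 := by
  intro h
  have h1 : (k.succ.succ : Fin (n + 2)) = (0 : Fin (n + 1)).succ := h
  exact Fin.succ_ne_zero _ (Fin.succ_injective _ h1)

theorem zero_ne_one' : (0 : Fin (n + 2)) ≠ 1 := by
  intro h
  simpa using congrArg Fin.val h

theorem cases2 {P : Fin (n + 2) → Prop} (h0 : P 0) (h1 : P 1) (h2 : ∀ k : Fin n, P k.succ.succ) :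
    ∀ i, P i := by
  intro i
  refine Fin.cases h0 (fun j => ?_) i
  exact Fin.cases h1 (fun k => h2 k) j

theorem mulB_zero (M : Matrix (Fin (n + 2)) (Fin (n + 2)) 𝕜) (t : ℝ) (i : Fin (n + 2)) :
    (M * boostM 𝕜 n t) i 0 = M i 0 * (Real.cosh t : 𝕜) + M i 1 * (Real.sinh t : 𝕜) := by
  rw [Matrix.mul_apply, sum_fin2]
  simp [boostM, ss_ne_zero, ss_ne_one, zero_ne_one', zero_ne_one'.symm]

theorem mulB_one (M : Matrix (Fin (n + 2)) (Fin (n + 2)) 𝕜) (t : ℝ) (i : Fin (n + 2)) :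
    (M * boostM 𝕜 n t) i 1 = M i 0 * (Real.sinh t : 𝕜) + M i 1 * (Real.cosh t : 𝕜) := by
  rw [Matrix.mul_apply, sum_fin2]
  simp [boostM, ss_ne_zero, ss_ne_one, zero_ne_one', zero_ne_one'.symm]

theorem mulB_ss (M : Matrix (Fin (n + 2)) (Fin (n + 2)) 𝕜) (t : ℝ) (i : Fin (n + 2)) (k : Fin n) :
    (M * boostM 𝕜 n t) i k.succ.succ = M i k.succ.succ := by
  rw [Matrix.mul_apply, sum_fin2]
  simp [boostM, ss_ne_zero, ss_ne_one, zero_ne_one', zero_ne_one'.symm, (ss_ne_zero _).symm,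
    (ss_ne_one _).symm]

theorem Bmul_zero (M : Matrix (Fin (n + 2)) (Fin (n + 2)) 𝕜) (t : ℝ) (j : Fin (n + 2)) :
    (boostM 𝕜 n t * M) 0 j = (Real.cosh t : 𝕜) * M 0 j + (Real.sinh t : 𝕜) * M 1 j := by
  rw [Matrix.mul_apply, sum_fin2]
  simp [boostM, ss_ne_zero, ss_ne_one, zero_ne_one', zero_ne_one'.symm, (ss_ne_zero _).symm,
    (ss_ne_one _).symm]

theorem Bmul_one (M : Matrix (Fin (n + 2)) (Fin (n + 2)) 𝕜) (t : ℝ) (j : Fin (n + 2)) :
    (boostM 𝕜 n t * M) 1 j = (Real.sinh t : 𝕜) * M 0 j + (Real.cosh t : 𝕜) * M 1 j := by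
  rw [Matrix.mul_apply, sum_fin2]
  simp [boostM, ss_ne_zero, ss_ne_one, zero_ne_one', zero_ne_one'.symm, (ss_ne_zero _).symm,
    (ss_ne_one _).symm]

theorem Bmul_ss (M : Matrix (Fin (n + 2)) (Fin (n + 2)) 𝕜) (t : ℝ) (j : Fin (n + 2)) (k : Fin n) :
    (boostM 𝕜 n t * M) k.succ.succ j = M k.succ.succ j := by
  rw [Matrix.mul_apply, sum_fin2]
  simp [boostM, ss_ne_zero, ss_ne_one, zero_ne_one', zero_ne_one'.symm, (ss_ne_zero _).symm,
    (ss_ne_one _).symm]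

theorem mulVec_xi (M : Matrix (Fin (n + 2)) (Fin (n + 2)) 𝕜) (i : Fin (n + 2)) :
    (M *ᵥ xi 𝕜 n) i = M i 0 + M i 1 := by
  simp [xi, Matrix.mulVec_add]

theorem xi_zero : xi 𝕜 n 0 = 1 := by
  simp [xi, zero_ne_one']

theorem xi_one : xi 𝕜 n 1 = 1 := by
  simp [xi, zero_ne_one'.symm]

theorem xi_ss (k : Fin n) : xi 𝕜 n k.succ.succ = 0 := by
  simp [xi, ss_ne_zero, ss_ne_one]

/-- the form in coordinates -/
theorem form_apply {Q : Matrix (Fin (n + 2)) (Fin (n + 2)) 𝕜}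
    (hQ : Qᴴ * lor 𝕜 n * Q = lor 𝕜 n) (i j : Fin (n + 2)) :
    -(star (Q 0 i) * Q 0 j) + star (Q 1 i) * Q 1 j +
      ∑ k : Fin n, star (Q k.succ.succ i) * Q k.succ.succ j = lor 𝕜 n i j := by
  have h := congrFun (congrFun hQ i) j
  rw [← h, Matrix.mul_apply, sum_fin2]
  simp [lor, Matrix.mul_diagonal, ss_ne_zero, zero_ne_one'.symm]

theorem lor_zero_ss (j : Fin n) : lor 𝕜 n 0 j.succ.succ = 0 := by
  simp [lor, (ss_ne_zero j).symm]

/-- the consequences of the invariance of the form and of the isotropic vector -/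
theorem facts {Q : Matrix (Fin (n + 2)) (Fin (n + 2)) 𝕜}
    (hQ : Qᴴ * lor 𝕜 n * Q = lor 𝕜 n) {α : 𝕜} (hα : ‖α‖ = 1)
    (hξ : Q *ᵥ xi 𝕜 n = α • xi 𝕜 n) :
    (Q 0 0 = α - Q 0 1) ∧ (Q 1 0 = α - Q 1 1) ∧ (∀ k : Fin n, Q k.succ.succ 1 = - Q k.succ.succ 0) ∧
    (Q 1 1 = Q 0 1 + α) ∧ (∀ j : Fin n, Q 0 j.succ.succ = Q 1 j.succ.succ) ∧
    (∀ i j : Fin n, ‖Q i.succ.succ j.succ.succ‖ ≤ 1) := by
  have hc : ∀ i, Q i 0 + Q i 1 = α * xi 𝕜 n i := by
    intro i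
    rw [← mulVec_xi, hξ]
    rfl
  have h0 : Q 0 0 = α - Q 0 1 := by
    have := hc 0
    rw [xi_zero, mul_one] at this
    exact eq_sub_of_add_eq this
  have h1 : Q 1 0 = α - Q 1 1 := by
    have := hc 1
    rw [xi_one, mul_one] at this
    exact eq_sub_of_add_eq this
  have h2 : ∀ k : Fin n, Q k.succ.succ 1 = - Q k.succ.succ 0 := by
    intro k
    have := hc k.succ.succ
    rw [xi_ss, mul_zero] at this
    exact (neg_eq_of_add_eq_zero_right this).symm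
  have hαα : α * star α = 1 := by
    rw [RCLike.star_def, RCLike.mul_conj, hα]
    simp
  -- the form against the isotropic vector
  have hf : ∀ j, star α * (Q 1 j - Q 0 j) = lor 𝕜 n 0 j + lor 𝕜 n 1 j := by
    intro j
    have e0 := form_apply hQ 0 j
    have e1 := form_apply hQ 1 j
    rw [← e0, ← e1]
    have e2 : ∑ k : Fin n, star (Q k.succ.succ 0) * Q k.succ.succ j +
        ∑ k : Fin n, star (Q k.succ.succ 1) * Q k.succ.succ j = 0 := by
      rw [← Finset.sum_add_distrib]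
      refine Finset.sum_eq_zero fun k _ => ?_
      rw [h2 k, star_neg]
      ring
    have e3 : star (Q 0 0) = star α - star (Q 0 1) := by rw [h0, star_sub]
    have e4 : star (Q 1 0) = star α - star (Q 1 1) := by rw [h1, star_sub]
    rw [e3, e4]
    linear_combination -e2
  have h3 : ∀ j, Q 1 j - Q 0 j = α * (lor 𝕜 n 0 j + lor 𝕜 n 1 j) := by
    intro j
    rw [← hf j, ← mul_assoc, hαα, one_mul]
  have h4 : Q 1 1 = Q 0 1 + α := by
    have := h3 1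
    rw [show lor 𝕜 n 0 1 = 0 by simp [lor, zero_ne_one'],
      show lor 𝕜 n 1 1 = 1 by simp [lor, zero_ne_one'.symm], zero_add, mul_one] at this
    linear_combination this
  have h5 : ∀ j : Fin n, Q 0 j.succ.succ = Q 1 j.succ.succ := by
    intro j
    have := h3 j.succ.succ
    rw [show lor 𝕜 n 0 j.succ.succ = 0 by simp [lor, (ss_ne_zero j).symm],
      show lor 𝕜 n 1 j.succ.succ = 0 by simp [lor, (ss_ne_one j).symm], add_zero,
      mul_zero] at this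
    linear_combination -this
  refine ⟨h0, h1, h2, h4, h5, fun i j => ?_⟩
  have h6 := form_apply hQ j.succ.succ j.succ.succ
  rw [show lor 𝕜 n j.succ.succ j.succ.succ = 1 by simp [lor, (ss_ne_zero j)], h5 j, neg_add_cancel,
    zero_add] at h6
  have h7 : ∑ k : Fin n, ‖Q k.succ.succ j.succ.succ‖ ^ 2 = 1 := by
    have : ((∑ k : Fin n, ‖Q k.succ.succ j.succ.succ‖ ^ 2 : ℝ) : 𝕜) = 1 := by
      rw [← h6]
      push_cast
      refine Finset.sum_congr rfl fun k _ => ?_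
      rw [RCLike.star_def, RCLike.conj_mul]
    exact_mod_cast this
  have h8 : ‖Q i.succ.succ j.succ.succ‖ ^ 2 ≤ 1 := by
    rw [← h7]
    exact Finset.single_le_sum (f := fun k : Fin n => ‖Q k.succ.succ j.succ.succ‖ ^ 2)
      (fun k _ => by positivity) (Finset.mem_univ i)
  nlinarith [norm_nonneg (Q i.succ.succ j.succ.succ)]

theorem cosh_sub (t : ℝ) : (Real.cosh t : 𝕜) - (Real.sinh t : 𝕜) = (Real.exp (-t) : 𝕜) := by
  rw [← RCLike.ofReal_sub, Real.cosh_sub_sinh]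

theorem cosh_sq (t : ℝ) : (Real.cosh t : 𝕜) ^ 2 - (Real.sinh t : 𝕜) ^ 2 = 1 := by
  have := Real.cosh_sq_sub_sinh_sq t
  exact_mod_cast congrArg (fun x : ℝ => (x : 𝕜)) this

/-- the entries of the conjugate -/
theorem conj_entries {Q : Matrix (Fin (n + 2)) (Fin (n + 2)) 𝕜}
    (hQ : Qᴴ * lor 𝕜 n * Q = lor 𝕜 n) {α : 𝕜} (hα : ‖α‖ = 1)
    (hξ : Q *ᵥ xi 𝕜 n = α • xi 𝕜 n) {t : ℝ} (ht : 0 ≤ t)
    (hE : ∀ i j, Real.exp (-t) * ‖Q i j‖ ≤ 1) :
    ∀ i j, ‖(boostM 𝕜 n (-t) * Q * boostM 𝕜 n t) i j‖ ≤ 2 := by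
  obtain ⟨h0, h1, h2, h4, h5, h6⟩ := facts hQ hα hξ
  set E : 𝕜 := (Real.exp (-t) : 𝕜) with hEdef
  have hEn : ‖E‖ = Real.exp (-t) := by
    rw [hEdef, RCLike.norm_ofReal, abs_of_pos (Real.exp_pos _)]
  have hE1 : ‖E‖ ≤ 1 := by
    rw [hEn]
    exact Real.exp_le_one_iff.mpr (by linarith)
  have hEQ : ∀ i j, ‖E * Q i j‖ ≤ 1 := fun i j => by rw [norm_mul, hEn]; exact hE i j
  have hEEQ : ∀ i j, ‖E * (E * Q i j)‖ ≤ 1 := fun i j => by
    rw [norm_mul]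
    exact mul_le_one₀ hE1 (norm_nonneg _) (hEQ i j)
  have hc : (Real.cosh t : 𝕜) - (Real.sinh t : 𝕜) = E := cosh_sub t
  have hsq : (Real.cosh t : 𝕜) ^ 2 - (Real.sinh t : 𝕜) ^ 2 = 1 := cosh_sq t
  have hch : (Real.cosh (-t) : 𝕜) = (Real.cosh t : 𝕜) := by rw [Real.cosh_neg]
  have hsh : (Real.sinh (-t) : 𝕜) = -(Real.sinh t : 𝕜) := by rw [Real.sinh_neg]; simp
  set c : 𝕜 := (Real.cosh t : 𝕜)
  set s : 𝕜 := (Real.sinh t : 𝕜)
  refine cases2 (cases2 ?_ ?_ fun l => ?_) (cases2 ?_ ?_ fun l => ?_)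
    (fun k => cases2 ?_ ?_ fun l => ?_)
  · have h : (boostM 𝕜 n (-t) * Q * boostM 𝕜 n t) 0 0 = α - E * (E * Q 0 1) := by
      rw [mulB_zero, Bmul_zero, Bmul_zero, hch, hsh, h0, h1, h4]
      rw [← hc]
      linear_combination α * hsq
    rw [h]
    refine (norm_sub_le _ _).trans ?_
    linarith [hEEQ 0 1]
  · have h : (boostM 𝕜 n (-t) * Q * boostM 𝕜 n t) 0 1 = E * (E * Q 0 1) := by
      rw [mulB_one, Bmul_zero, Bmul_zero, hch, hsh, h0, h1, h4]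
      rw [← hc]
      ring
    rw [h]
    linarith [hEEQ 0 1]
  · have h : (boostM 𝕜 n (-t) * Q * boostM 𝕜 n t) 0 l.succ.succ = E * Q 0 l.succ.succ := by
      rw [mulB_ss, Bmul_zero, hch, hsh, ← h5, ← hc]
      ring
    rw [h]
    linarith [hEQ 0 l.succ.succ]
  · have h : (boostM 𝕜 n (-t) * Q * boostM 𝕜 n t) 1 0 = - (E * (E * Q 0 1)) := by
      rw [mulB_zero, Bmul_one, Bmul_one, hch, hsh, h0, h1, h4]
      rw [← hc]
      ring
    rw [h, norm_neg]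
    linarith [hEEQ 0 1]
  · have h : (boostM 𝕜 n (-t) * Q * boostM 𝕜 n t) 1 1 = α + (E * (E * Q 0 1)) := by
      rw [mulB_one, Bmul_one, Bmul_one, hch, hsh, h0, h1, h4]
      rw [← hc]
      linear_combination α * hsq
    rw [h]
    refine (norm_add_le _ _).trans ?_
    linarith [hEEQ 0 1]
  · have h : (boostM 𝕜 n (-t) * Q * boostM 𝕜 n t) 1 l.succ.succ = E * Q 0 l.succ.succ := by
      rw [mulB_ss, Bmul_one, hch, hsh, ← h5, ← hc]
      ring
    rw [h]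
    linarith [hEQ 0 l.succ.succ]
  · have h : (boostM 𝕜 n (-t) * Q * boostM 𝕜 n t) k.succ.succ 0 = E * Q k.succ.succ 0 := by
      rw [mulB_zero, Bmul_ss, Bmul_ss, h2, ← hc]
      ring
    rw [h]
    linarith [hEQ k.succ.succ 0]
  · have h : (boostM 𝕜 n (-t) * Q * boostM 𝕜 n t) k.succ.succ 1 = -(E * Q k.succ.succ 0) := by
      rw [mulB_one, Bmul_ss, Bmul_ss, h2, ← hc]
      ring
    rw [h, norm_neg]
    linarith [hEQ k.succ.succ 0]
  · rw [mulB_ss, Bmul_ss]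
    linarith [h6 k l]

/-- the boosts form a one-parameter group: the inverse -/
theorem mat_mul (g h : LorGroup 𝕜 n) : mat (g * h) = mat g * mat h := rfl

theorem t_inl : S_INL := by
  intro 𝕜 _ n T hT p hp
  obtain ⟨a, ha⟩ := hp
  have hQ0 : (mat p)ᴴ * lor 𝕜 n * (mat p) = lor 𝕜 n := p.2
  -- the eigenvalue is not zero
  have ha0 : a ≠ 0 := by
    rintro rfl
    rw [zero_smul] at ha
    have h1 : mat p⁻¹ * mat p = 1 := by
      rw [← mat_mul, inv_mul_cancel]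
      rfl
    have h2 : xi 𝕜 n = 0 := by
      calc xi 𝕜 n = (mat p⁻¹ * mat p) *ᵥ xi 𝕜 n := by rw [h1, Matrix.one_mulVec]
        _ = mat p⁻¹ *ᵥ (mat p *ᵥ xi 𝕜 n) := by rw [Matrix.mulVec_mulVec]
        _ = 0 := by rw [ha, Matrix.mulVec_zero]
    have h3 := congrFun h2 0
    rw [xi_zero] at h3
    simp at h3
  set s : ℝ := Real.log ‖a‖ with hs
  refine ⟨s, ?_⟩
  have hTm : ∀ t, mat (T t) = boostM 𝕜 n t := fun t => hT t
  set Q : Matrix (Fin (n + 2)) (Fin (n + 2)) 𝕜 := mat (T (-s) * p) with hQdef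
  have hQ : Qᴴ * lor 𝕜 n * Q = lor 𝕜 n := (T (-s) * p).2
  have hE : Real.exp (-s) = ‖a‖⁻¹ := by
    rw [Real.exp_neg, hs, Real.exp_log (norm_pos_iff.mpr ha0)]
  set α : 𝕜 := (Real.exp (-s) : 𝕜) * a with hα
  have hαn : ‖α‖ = 1 := by
    rw [hα, norm_mul, RCLike.norm_ofReal, abs_of_pos (Real.exp_pos _), hE,
      inv_mul_cancel₀ (norm_ne_zero_iff.mpr ha0)]
  have hξ : Q *ᵥ xi 𝕜 n = α • xi 𝕜 n := by
    have h1 : Q = boostM 𝕜 n (-s) * mat p := by rw [hQdef, mat_mul, hTm]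
    have h2 : boostM 𝕜 n (-s) *ᵥ xi 𝕜 n = (Real.exp (-s) : 𝕜) • xi 𝕜 n := by
      funext i
      rw [mulVec_xi, Pi.smul_apply, smul_eq_mul]
      revert i
      have h3 : (Real.cosh (-s) : 𝕜) + (Real.sinh (-s) : 𝕜) = (Real.exp (-s) : 𝕜) := by
        rw [← RCLike.ofReal_add, Real.cosh_add_sinh]
      refine cases2 ?_ ?_ fun k => ?_
      · rw [xi_zero, mul_one, ← h3]
        simp [boostM, zero_ne_one', zero_ne_one'.symm]
      · rw [xi_one, mul_one, ← h3]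
        simp [boostM, zero_ne_one', zero_ne_one'.symm, add_comm]
      · rw [xi_ss, mul_zero]
        simp [boostM, ss_ne_zero, ss_ne_one]
    rw [h1, ← Matrix.mulVec_mulVec, ha, Matrix.mulVec_smul, h2, smul_smul, mul_comm, ← hα]
  -- eventually the scaled entries are small
  have hlim : ∀ i j, ∀ᶠ t : ℝ in atTop, Real.exp (-t) * ‖Q i j‖ ≤ 1 := by
    intro i j
    have h1 : Tendsto (fun t : ℝ => Real.exp (-t) * ‖Q i j‖) atTop (𝓝 (0 * ‖Q i j‖)) :=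
      Real.tendsto_exp_neg_atTop_nhds_zero.mul_const _
    rw [zero_mul] at h1
    exact h1.eventually_le_const one_pos
  have hlim' : ∀ᶠ t : ℝ in atTop, ∀ i j, Real.exp (-t) * ‖Q i j‖ ≤ 1 := by
    rw [eventually_all]
    intro i
    rw [eventually_all]
    exact hlim i
  filter_upwards [hlim', eventually_ge_atTop 0] with t ht ht0
  intro i j
  have h1 : mat (T (-t) * (T (-s) * p) * T t) = boostM 𝕜 n (-t) * Q * boostM 𝕜 n t := by
    rw [mat_mul, mat_mul, hTm, hTm]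
  rw [h1]
  exact conj_entries hQ hαn hξ ht0 ht i j

end Pool.Agent.N247.RO
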